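import Pool.Agent.W205.K5.Stm0

/-! Chords below the curve (part K5-CHORD). -/

set_option autoImplicit false

namespace Pool.Agent.W511.K5

open Finset Pool.Agent.W205.K5

theorem last : S_LAST := by
  intro k w g hk hS hK
  have hkR : (0 : ℝ) < k := by exact_mod_cast (by omega : 0 < k)
  have h1 := hS.top 0 (Nat.zero_le _)
  unfold KK at hK
  exact le_of_mul_le_mul_left (hK.trans h1) hkR

theorem exists_n {W G : ℝ} (a : ℕ) (h : (a : ℝ) * W ≤ G) : ∀ k : ℕ, a + 1 ≤ k → G ≤ k * W →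
    ∃ n : ℕ, a ≤ n ∧ n < k ∧ (n : ℝ) * W ≤ G ∧ G ≤ (n + 1) * W := by
  intro k hk
  induction k, hk using Nat.le_induction with
  | base =>
    intro hG
    exact ⟨a, le_rfl, Nat.lt_succ_self a, h, by push_cast at hG; exact hG⟩
  | succ k hk ih =>
    intro hG
    by_cases h1 : G ≤ k * W
    · obtain ⟨n, h2, h3, h4⟩ := ih h1
      exact ⟨n, h2, h3.trans (Nat.lt_succ_self k), h4⟩
    · push Not at h1
      exact ⟨k, Nat.le_of_succ_le hk, Nat.lt_succ_self k, h1.le, by push_cast at hG; exact hG⟩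

theorem mid (hU : S_UNI) {W G a b B B' K K' : ℝ} {m : ℕ} (hG : 0 < G) (ha : 0 ≤ a)
    (h1 : a * G ≤ G - W) (h2 : G - W ≤ b * G) (hKK : K < K') (hm : 0 < m)
    (hL : 0 ≤ B * K' - B' * K) (hb : B' - B ≤ (1 - b) * (K' - K))
    (e1 : B * K' - B' * K ≤ m * a ^ m * ((1 - a) * (K' - K) - (B' - B)))
    (e2 : B * K' - B' * K ≤ m * b ^ m * ((1 - b) * (K' - K) - (B' - B)))
    (hch : (m : ℝ) * (1 - W / G) ^ m ≤ G) :
    B * (K' - G) + B' * (G - K) ≤ W * (K' - K) := by
  have hmR : (0 : ℝ) < m := by exact_mod_cast hm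
  have hd : 0 < K' - K := by linarith
  obtain ⟨t, ht⟩ : ∃ t, t = 1 - W / G := ⟨_, rfl⟩
  rw [← ht] at hch
  have hGt : G * (1 - t) = W := by rw [ht]; field_simp; ring
  have hat : a ≤ t := by
    have : a * G ≤ t * G := by linarith
    exact le_of_mul_le_mul_right this hG
  have htb : t ≤ b := by
    have : t * G ≤ b * G := by linarith
    exact le_of_mul_le_mul_right this hG
  have ht0 : 0 ≤ t := ha.trans hat
  have hmd : 0 < m * (K' - K) := by positivity
  have hend : ∀ s : ℝ, B * K' - B' * K ≤ m * s ^ m * ((1 - s) * (K' - K) - (B' - B)) →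
      (B * K' - B' * K) / (m * (K' - K)) ≤ s ^ m * (1 - (B' - B) / (K' - K) - s) := by
    intro s hs
    rw [div_le_iff₀ hmd]
    have h3 : s ^ m * (1 - (B' - B) / (K' - K) - s) * (m * (K' - K)) =
        m * s ^ m * ((1 - s) * (K' - K) - (B' - B)) := by
      field_simp
      ring
    rw [h3]; exact hs
  have h3 := hU m a t b (1 - (B' - B) / (K' - K)) ((B * K' - B' * K) / (m * (K' - K))) ha hat htb
    (div_nonneg hL hmd.le) (hend a e1) (hend b e2)
  rw [div_le_iff₀ hmd] at h3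
  have h4 : t ^ m * (1 - (B' - B) / (K' - K) - t) * (m * (K' - K)) =
      m * t ^ m * ((1 - t) * (K' - K) - (B' - B)) := by
    field_simp
    ring
  rw [h4] at h3
  have h5 : 0 ≤ (1 - t) * (K' - K) - (B' - B) := by
    have : (1 - b) * (K' - K) ≤ (1 - t) * (K' - K) :=
      mul_le_mul_of_nonneg_right (by linarith) hd.le
    linarith
  have h6 := mul_le_mul_of_nonneg_right hch h5
  have h7 : G * ((1 - t) * (K' - K) - (B' - B)) = W * (K' - K) - G * (B' - B) := by
    rw [← hGt]; ring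
  rw [h7] at h6
  linarith

theorem chord (hU : S_UNI) : S_CHORD := by
  intro k w g hk hS m hm hmk hK hK'
  have hW := hS.w0 0 (Nat.zero_le _)
  have hG := hS.gp 0 (Nat.zero_le _)
  have htop := hS.top 0 (Nat.zero_le _)
  have hch0 := fun n => hS.ch 0 n (Nat.zero_le _)
  obtain ⟨W, hWd⟩ : ∃ W, W = w 0 := ⟨_, rfl⟩
  obtain ⟨G, hGd⟩ : ∃ G, G = g 0 := ⟨_, rfl⟩
  rw [← hGd] at hK hK' hG htop
  rw [← hWd] at hW htop
  rw [← hWd, ← hGd]
  have hch : ∀ n : ℕ, n < k → (n : ℝ) * W ≤ G → G ≤ (n + 1) * W →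
      (n : ℝ) * (1 - W / G) ^ n ≤ G := by
    intro n hn h1 h2
    have := hch0 n hn (by rw [← hWd, ← hGd]; exact h1) (by rw [← hWd, ← hGd]; exact h2)
    rw [← hWd, ← hGd, Nat.sub_zero] at this
    exact this
  have hmR : (0 : ℝ) < m := by exact_mod_cast hm
  have h3 : ¬ ((m : ℝ) + 1) * W < G := by
    intro h
    have hmk2 : m + 1 < k := by
      by_contra hcon
      have : k = m + 1 := by omega
      rw [this] at htop
      push_cast at htop
      linarith
    obtain ⟨n, hn1, hn2, hn3, hn4⟩ := exists_n (m + 1) (by push_cast; exact h.le) k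
      (by omega) htop
    have h5 := hch n hn2 hn3 hn4
    have hn0 : (0 : ℝ) < n := by exact_mod_cast (by omega : 0 < n)
    have hn1' : (1 : ℝ) ≤ n := by exact_mod_cast (by omega : 1 ≤ n)
    have h7 : (0 : ℝ) ≤ 1 - 1 / n := by
      have : 1 / (n : ℝ) ≤ 1 := by rw [div_le_one hn0]; exact hn1'
      linarith
    rcases Nat.lt_or_ge (m + 1) n with h10 | h10
    · have h6 : 1 - 1 / (n : ℝ) ≤ 1 - W / G := by
        have : W / G ≤ 1 / n := by rw [div_le_div_iff₀ hG hn0]; linarith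
        linarith
      have h8 : (1 - 1 / (n : ℝ)) ^ n ≤ (1 - W / G) ^ n := pow_le_pow_left₀ h7 h6 n
      have h9 : KK n ≤ G := by
        unfold KK
        exact (mul_le_mul_of_nonneg_left h8 hn0.le).trans h5
      have h11 : KK (m + 1) < KK n := by
        have hn5 : n ≤ 4 := by omega
        have hm2 : m ≤ 2 := by omega
        interval_cases m
        · interval_cases n
          · norm_num [KK]
          · norm_num [KK]
        · interval_cases n
          norm_num [KK]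
      linarith
    · have hn : n = m + 1 := by omega
      subst hn
      have h6 : 1 - 1 / ((m + 1 : ℕ) : ℝ) < 1 - W / G := by
        have : W / G < 1 / ((m + 1 : ℕ) : ℝ) := by
          rw [div_lt_div_iff₀ hG hn0]
          push_cast
          linarith
        linarith
      have h8 := pow_lt_pow_left₀ h6 h7 (Nat.succ_ne_zero m)
      have h9 : KK (m + 1) < G := by
        unfold KK
        exact lt_of_lt_of_le (mul_lt_mul_of_pos_left h8 hn0) h5
      linarith
  push Not at h3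
  have main : ∀ (a b B B' K K' : ℝ), (1 - 1 / (m : ℝ)) = a → (1 - 1 / ((m : ℝ) + 1)) = b →
      a ^ m = B → b ^ (m + 1) = B' → KK m = K → KK (m + 1) = K' → 0 ≤ a → K < K' →
      0 ≤ B * K' - B' * K → B' - B ≤ (1 - b) * (K' - K) →
      B * K' - B' * K ≤ m * a ^ m * ((1 - a) * (K' - K) - (B' - B)) →
      B * K' - B' * K ≤ m * b ^ m * ((1 - b) * (K' - K) - (B' - B)) →
      (K ≤ G → G ≤ m * W → B * (K' - G) + B' * (G - K) ≤ W * (K' - K)) →
      (1 - 1 / (m : ℝ)) ^ m * (KK (m + 1) - G) +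
        (1 - 1 / ((m : ℝ) + 1)) ^ (m + 1) * (G - KK m) ≤ W * (KK (m + 1) - KK m) := by
    intro a b B B' K K' ha hb hB hB' hKd hKd' ha0 hlt hL hbb e1 e2 hi
    rw [ha, hb, hB, hB', hKd, hKd']
    rw [hKd] at hK
    rcases le_total G (m * W) with h | h
    · exact hi hK h
    · refine mid hU hG ha0 ?_ ?_ hlt hm hL hbb e1 e2 (hch m hmk h h3)
      · rw [← ha]
        have h4 : (1 / (m : ℝ)) * G ≥ W := by
          rw [ge_iff_le, one_div, inv_mul_eq_div, le_div_iff₀ hmR]
          linarith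
        linarith
      · rw [← hb]
        have h4 : (1 / ((m : ℝ) + 1)) * G ≤ W := by
          rw [one_div, inv_mul_eq_div, div_le_iff₀ (by positivity)]
          linarith
        linarith
  have hm4 : m ≤ 4 := by omega
  clear hch h3 hch0 hK'
  interval_cases m
  · refine main 0 (1 / 2) 0 (1 / 4) 0 (1 / 2) ?_ ?_ ?_ ?_ ?_ ?_ ?_ ?_ ?_ ?_ ?_ ?_ ?_
    all_goals first | (norm_num [KK]; done) | skip
    intro h1 h2
    norm_num at h2
    linarith
  · refine main (1 / 2) (2 / 3) (1 / 4) (8 / 27) (1 / 2) (8 / 9) ?_ ?_ ?_ ?_ ?_ ?_ ?_ ?_ ?_ ?_ ?_ ?_ ?_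
    all_goals first | (norm_num [KK]; done) | skip
    intro h1 h2
    norm_num at h2
    linarith
  · refine main (2 / 3) (3 / 4) (8 / 27) (81 / 256) (8 / 9) (81 / 64) ?_ ?_ ?_ ?_ ?_ ?_ ?_ ?_ ?_ ?_ ?_ ?_ ?_
    all_goals first | (norm_num [KK]; done) | skip
    intro h1 h2
    norm_num at h2
    linarith
  · refine main (3 / 4) (4 / 5) (81 / 256) (1024 / 3125) (81 / 64) (1024 / 625) ?_ ?_ ?_ ?_ ?_ ?_ ?_ ?_ ?_ ?_ ?_ ?_ ?_
    all_goals first | (norm_num [KK]; done) | skip
    intro h1 h2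
    norm_num at h2
    linarith

end Pool.Agent.W511.K5
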